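import Mathlib

set_option autoImplicit false

namespace Pool.Agent.Results.MP_06621a_co.MaxPalindromes

open Finset

/-- the number of distinct non-empty palindromes occurring as scattered subwords of `w` -/
noncomputable def SP {α : Type} (w : List α) : ℕ :=
  {u : List α | u ≠ [] ∧ u.Sublist w ∧ u.reverse = u}.ncard

/-- the number of distinct letters of `w` -/
noncomputable def alph {α : Type} (w : List α) : ℕ := {c : α | c ∈ w}.ncard

def M (n : ℕ) : ℕ := if n % 2 = 1 then 3 * 2 ^ ((n + 1) / 2 - 1) - 2 else 2 ^ (n / 2 + 1) - 2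

def G (x : ℤ) : ℤ := if x ≤ 0 then x + 2 else M x.toNat + 2

def D (x : ℤ) : ℤ := 2 ^ (x / 2).toNat

theorem M_even (m : ℕ) : (M (2 * m) : ℤ) = 2 * 2 ^ m - 2 := by
  have : 2 ≤ 2 ^ (m + 1) := by have := Nat.one_le_two_pow (n := m); rw [pow_succ]; omega
  rw [M, if_neg (by omega), show 2 * m / 2 + 1 = m + 1 by omega, Nat.cast_sub this]
  push_cast; ring

theorem M_odd (m : ℕ) : (M (2 * m + 1) : ℤ) = 3 * 2 ^ m - 2 := by
  have : 2 ≤ 3 * 2 ^ m := by have := Nat.one_le_two_pow (n := m); omega
  rw [M, if_pos (by omega), show (2 * m + 1 + 1) / 2 - 1 = m by omega, Nat.cast_sub this]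
  push_cast; ring

theorem G_nat (n : ℕ) : G n = M n + 2 := by
  unfold G
  split_ifs with h
  · obtain rfl : n = 0 := by omega
    simp [M]
  · simp

theorem G_succ (x : ℤ) : G (x + 1) = G x + D x := by
  by_cases h : x < 0
  · rw [G, G, if_pos (by omega), if_pos (by omega), D, show (x / 2).toNat = 0 by omega]; ring
  obtain ⟨n, rfl⟩ := Int.eq_ofNat_of_zero_le (not_lt.mp h)
  rw [show (n : ℤ) + 1 = (n + 1 : ℕ) by push_cast; rfl, G_nat, G_nat, D]
  obtain ⟨m, rfl | rfl⟩ := Nat.even_or_odd' n
  · rw [M_odd, M_even, show (((2 * m : ℕ) : ℤ) / 2).toNat = m by omega]; ring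
  · rw [show 2 * m + 1 + 1 = 2 * (m + 1) by ring, M_odd, M_even,
      show (((2 * m + 1 : ℕ) : ℤ) / 2).toNat = m by omega]; ring

theorem D_mono {x y : ℤ} (h : x ≤ y) : D x ≤ D y :=
  pow_le_pow_right₀ (by norm_num) (by omega)

theorem D_pos (x : ℤ) : 0 < D x := by unfold D; positivity

theorem G_mono : Monotone G := monotone_int_of_le_succ fun x => by
  rw [G_succ]; linarith [D_pos x]

theorem conv (x : ℤ) (t : ℕ) : 2 * G x ≤ G (x - t) + G (x + t) := by
  induction t with
  | zero => simp [two_mul]
  | succ t ih =>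
    have h1 := G_succ (x + t)
    have h2 := G_succ (x - t - 1)
    have h3 : D (x - t - 1) ≤ D (x + t) := D_mono (by omega)
    push_cast
    rw [show x - (t + 1) = x - t - 1 by ring, show x + (t + 1) = x + t + 1 by ring, h1]
    rw [sub_add_cancel] at h2
    linarith

theorem conv' (n : ℤ) (a b : ℕ) : 2 * G (n - a - b) ≤ G (n - 2 * a) + G (n - 2 * b) := by
  rcases le_total a b with h | h
  · obtain ⟨t, rfl⟩ := Nat.exists_eq_add_of_le h
    have := conv (n - a - (a + t : ℕ)) t
    push_cast at this ⊢
    rw [show n - a - (a + t) - t = n - 2 * (a + t) by ring,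
      show n - a - (a + t) + t = n - 2 * a by ring] at this
    linarith
  · obtain ⟨t, rfl⟩ := Nat.exists_eq_add_of_le h
    have := conv (n - (b + t : ℕ) - b) t
    push_cast at this ⊢
    rw [show n - (b + t) - b - t = n - 2 * (b + t) by ring,
      show n - (b + t) - b + t = n - 2 * b by ring] at this
    linarith

theorem sum_dist (f : ℕ → ℤ) (hf : Antitone f) (T : Finset ℕ) :
    ∑ x ∈ T, f x ≤ ∑ k ∈ range T.card, f k := by
  induction T using Finset.induction_on_max with
  | empty => simp
  | insert m T hm ih =>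
    have hn : m ∉ T := fun h => lt_irrefl _ (hm m h)
    rw [sum_insert hn, card_insert_of_notMem hn, sum_range_succ]
    have : T.card ≤ m := by
      simpa using card_le_card (show T ⊆ range m from fun x hx => mem_range.mpr (hm x hx))
    linarith [hf this]

/-- the partial sums -/
def T (n q : ℕ) : ℤ := ∑ k ∈ range q, G ((n : ℤ) - 2 - 2 * k)

theorem T_step (n q : ℕ) : T (n + 2) (q + 1) = G n + T n q := by
  unfold T
  rw [sum_range_succ', add_comm]
  congr 1
  · congr 1; push_cast; ring
  · refine sum_congr rfl fun k _ => ?_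
    congr 1; push_cast; ring

theorem M_step (n : ℕ) : (M (n + 2) : ℤ) = G n + M n := by
  rw [G_nat]
  obtain ⟨m, rfl | rfl⟩ := Nat.even_or_odd' n
  · rw [show 2 * m + 2 = 2 * (m + 1) by ring, M_even, M_even]; ring
  · rw [show 2 * m + 1 + 2 = 2 * (m + 1) + 1 by ring, M_odd, M_odd]; ring

theorem T_le (n : ℕ) : ∀ q, T n q ≤ M n ∧ (2 * q < n → T n q < M n) := by
  induction n using Nat.twoStepInduction with
  | zero =>
    intro q
    refine ⟨?_, by omega⟩
    refine (sum_nonpos fun k _ => ?_).trans (by positivity)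
    rw [G, if_pos (by omega)]; omega
  | one =>
    intro q
    cases q with
    | zero => simp [T, M]
    | succ q =>
      refine ⟨?_, by omega⟩
      unfold T
      rw [sum_range_succ']
      have : ∑ k ∈ range q, G (((1 : ℕ) : ℤ) - 2 - 2 * ((k + 1 : ℕ) : ℤ)) ≤ 0 :=
        sum_nonpos fun k _ => by rw [G, if_pos (by omega)]; omega
      have e : G (((1 : ℕ) : ℤ) - 2 - 2 * ((0 : ℕ) : ℤ)) = 1 := by decide
      have e' : (M 1 : ℤ) = 1 := by decide
      linarith
  | more n ih _ =>
    intro q
    rw [M_step]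
    cases q with
    | zero =>
      have : T (n + 2) 0 = 0 := rfl
      rw [this, G_nat]
      exact ⟨by positivity, fun _ => by positivity⟩
    | succ q =>
      rw [T_step]
      exact ⟨by linarith [(ih q).1], fun h => by linarith [(ih q).2 (by omega)]⟩

theorem T_lt (n : ℕ) : ∀ q, n + 3 ≤ 2 * q → T n q < M n := by
  induction n using Nat.twoStepInduction with
  | zero =>
    intro q hq
    obtain ⟨q, rfl⟩ : ∃ k, q = k + 1 := ⟨q - 1, by omega⟩
    unfold T
    rw [sum_range_succ]
    have : ∑ k ∈ range q, G (((0 : ℕ) : ℤ) - 2 - 2 * (k : ℤ)) ≤ 0 :=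
      sum_nonpos fun k _ => by rw [G, if_pos (by omega)]; omega
    rw [G, if_pos (by omega)]
    omega
  | one =>
    intro q hq
    obtain ⟨q, rfl⟩ : ∃ k, q = k + 1 + 1 := ⟨q - 2, by omega⟩
    unfold T
    rw [sum_range_succ', sum_range_succ]
    have : ∑ k ∈ range q, G (((1 : ℕ) : ℤ) - 2 - 2 * ((k + 1 : ℕ) : ℤ)) ≤ 0 :=
      sum_nonpos fun k _ => by rw [G, if_pos (by omega)]; omega
    have e : G (((1 : ℕ) : ℤ) - 2 - 2 * ((0 : ℕ) : ℤ)) = 1 := by decide
    have e' : (M 1 : ℤ) = 1 := by decide
    have e2 : G (((1 : ℕ) : ℤ) - 2 - 2 * ((q + 1 : ℕ) : ℤ)) < 0 := by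
      rw [G, if_pos (by omega)]; omega
    linarith
  | more n ih _ =>
    intro q hq
    obtain ⟨q, rfl⟩ : ∃ k, q = k + 1 := ⟨q - 1, by omega⟩
    rw [M_step, T_step]
    linarith [ih q (by omega)]

section
variable {α : Type} [DecidableEq α]

def P (w : List α) : Finset (List α) := w.sublists.toFinset.filter fun u => u ≠ [] ∧ u.reverse = u

theorem mem_P {w u : List α} : u ∈ P w ↔ u ≠ [] ∧ u.Sublist w ∧ u.reverse = u := by
  simp only [P, mem_filter, List.mem_toFinset, List.mem_sublists]; tauto

theorem SP_eq (w : List α) : SP w = (P w).card := by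
  rw [SP, ← Set.ncard_coe_finset]; congr 1; ext u; simp [mem_P]

theorem alph_eq (w : List α) : alph w = w.toFinset.card := by
  rw [alph, ← Set.ncard_coe_finset]; congr 1; ext u; simp

omit [DecidableEq α] in
theorem sub1 {c : α} {t r : List α} (l : List α) (hc : c ∉ l) (h : (c :: t).Sublist (l ++ c :: r)) :
    t.Sublist r := by
  induction l with
  | nil => exact List.cons_sublist_cons.mp h
  | cons x l ih =>
    rcases List.sublist_cons_iff.mp h with g | ⟨s, e, -⟩
    · exact ih (fun g => hc (List.mem_cons_of_mem _ g)) g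
    · exact absurd (by simp [(List.cons.inj e).1]) hc

omit [DecidableEq α] in
theorem sub2 {c : α} {t m r : List α} (hc : c ∉ r) (h : (t ++ [c]).Sublist (m ++ c :: r)) :
    t.Sublist m := by
  have := h.reverse
  simp only [List.reverse_append, List.reverse_cons, List.reverse_nil, List.nil_append,
    List.singleton_append, List.append_assoc] at this
  exact List.reverse_sublist.mp (sub1 _ (by simpa using hc) this)

theorem first {c : α} {w : List α} (h : c ∈ w) : ∃ l r, w = l ++ c :: r ∧ c ∉ l := by
  induction w with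
  | nil => simp at h
  | cons x w ih =>
    by_cases e : c = x
    · exact ⟨[], w, by simp [e], by simp⟩
    · obtain ⟨l, r, e1, e2⟩ := ih (by simpa [e] using h)
      exact ⟨x :: l, r, by simp [e1], by simp [e, e2]⟩

theorem last {c : α} {w : List α} (h : c ∈ w) : ∃ l r, w = l ++ c :: r ∧ c ∉ r := by
  obtain ⟨l, r, e1, e2⟩ := first (List.mem_reverse.mpr h)
  refine ⟨r.reverse, l.reverse, ?_, by simpa using e2⟩
  rw [← List.reverse_reverse w, e1]; simp

omit [DecidableEq α] in
theorem pal {c : α} {t : List α} (h : (c :: t).reverse = c :: t) :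
    t = [] ∨ ∃ s, t = s ++ [c] ∧ s.reverse = s := by
  rcases List.eq_nil_or_concat t with e | ⟨s, x, rfl⟩
  · exact Or.inl e
  · simp only [List.concat_eq_append, List.reverse_cons, List.reverse_append, List.reverse_nil,
      List.nil_append, List.cons_append, List.cons.injEq] at h ⊢
    obtain ⟨rfl, h⟩ := h
    exact Or.inr ⟨s, rfl, List.append_cancel_right h⟩

theorem letter (w : List α) (ih : ∀ m : List α, m.length < w.length → (P m).card ≤ M m.length)
    (c : α) (hc : c ∈ w) : ∃ a b : ℕ, w[a]? = some c ∧ w.reverse[b]? = some c ∧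
      (((P w).filter fun u => u.head? = some c).card : ℤ) ≤ G ((w.length : ℤ) - 2 - a - b) := by
  obtain ⟨l, r, rfl, hl⟩ := first hc
  by_cases hr : c ∈ r
  · obtain ⟨m, r', rfl, hr'⟩ := last hr
    refine ⟨l.length, r'.length, by simp, by simp, ?_⟩
    have e : (((l ++ c :: (m ++ c :: r')).length : ℕ) : ℤ) - 2 - l.length - r'.length = m.length := by
      simp only [List.length_append, List.length_cons]; push_cast; ring
    rw [e, G_nat]
    have hs : ((P (l ++ c :: (m ++ c :: r'))).filter fun u => u.head? = some c) ⊆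
        insert [c] (insert [c, c] ((P m).image fun s => c :: (s ++ [c]))) := by
      intro u hu
      obtain ⟨hu, hh⟩ := mem_filter.mp hu
      obtain ⟨h0, h1, h2⟩ := mem_P.mp hu
      obtain ⟨x, t, rfl⟩ := List.exists_cons_of_ne_nil h0
      obtain rfl : x = c := by simpa using hh
      rcases pal h2 with rfl | ⟨s, rfl, hs⟩
      · simp
      · by_cases e : s = []
        · simp [e]
        · exact mem_insert_of_mem (mem_insert_of_mem
            (mem_image.mpr ⟨s, mem_P.mpr ⟨e, sub2 hr' (sub1 l hl h1), hs⟩, rfl⟩))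
    have h1 := card_le_card hs
    have h2 := card_insert_le [c] (insert [c, c] ((P m).image fun s => c :: (s ++ [c])))
    have h3 := card_insert_le [c, c] ((P m).image fun s => c :: (s ++ [c]))
    have h4 := card_image_le (s := P m) (f := fun s => c :: (s ++ [c]))
    have h5 := ih m (by simp; omega)
    omega
  · refine ⟨l.length, r.length, by simp, by simp, ?_⟩
    have e : (((l ++ c :: r).length : ℕ) : ℤ) - 2 - l.length - r.length = -1 := by
      simp only [List.length_append, List.length_cons]; push_cast; ring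
    rw [e, show G (-1) = 1 by decide]
    have hs : ((P (l ++ c :: r)).filter fun u => u.head? = some c) ⊆ {[c]} := by
      intro u hu
      obtain ⟨hu, hh⟩ := mem_filter.mp hu
      obtain ⟨h0, h1, h2⟩ := mem_P.mp hu
      obtain ⟨x, t, rfl⟩ := List.exists_cons_of_ne_nil h0
      obtain rfl : x = c := by simpa using hh
      rcases pal h2 with rfl | ⟨s, rfl, hs⟩
      · simp
      · exact absurd ((sub1 l hl h1).subset (by simp)) hr
    have h1 := card_le_card hs
    rw [card_singleton] at h1
    exact_mod_cast h1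

theorem key (w : List α) (ih : ∀ m : List α, m.length < w.length → (P m).card ≤ M m.length) :
    ((P w).card : ℤ) ≤ T w.length w.toFinset.card := by
  choose! a b ha hb hab using letter w ih
  have hc : (P w).card = ∑ c ∈ w.toFinset, ((P w).filter fun u => u.head? = some c).card := by
    rw [← card_biUnion]
    · congr 1
      ext u
      simp only [mem_biUnion, mem_filter, List.mem_toFinset]
      refine ⟨fun hu => ?_, fun ⟨_, _, h, _⟩ => h⟩
      obtain ⟨h0, h1, -⟩ := mem_P.mp hu
      obtain ⟨x, t, rfl⟩ := List.exists_cons_of_ne_nil h0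
      exact ⟨x, h1.subset (by simp), hu, rfl⟩
    · intro c _ d _ hcd
      refine disjoint_left.mpr fun u h1 h2 => hcd ?_
      exact Option.some.inj ((mem_filter.mp h1).2.symm.trans (mem_filter.mp h2).2)
  have anti : Antitone fun k : ℕ => G ((w.length : ℤ) - 2 - 2 * k) :=
    fun x y h => G_mono (by omega)
  have inj : ∀ (v : List α) (a : α → ℕ), (∀ c ∈ w, v[a c]? = some c) →
      ∑ c ∈ w.toFinset, G ((w.length : ℤ) - 2 - 2 * a c) ≤ T w.length w.toFinset.card := by
    intro v a ha
    have hi : Set.InjOn a (w.toFinset : Set α) := by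
      intro c hc d hd e
      have h1 := ha c (by simpa using hc)
      have h2 := ha d (by simpa using hd)
      rw [e, h2] at h1
      exact (Option.some.inj h1).symm
    have := sum_dist _ anti (w.toFinset.image a)
    rwa [sum_image hi, card_image_of_injOn hi] at this
  have h1 := inj _ a ha
  have h2 := inj _ b hb
  have h3 : 2 * ((P w).card : ℤ) ≤ ∑ c ∈ w.toFinset, (G ((w.length : ℤ) - 2 - 2 * a c) +
      G ((w.length : ℤ) - 2 - 2 * b c)) := by
    rw [hc]; push_cast; rw [mul_sum]
    refine sum_le_sum fun c hc => ?_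
    linarith [hab c (List.mem_toFinset.mp hc), conv' ((w.length : ℤ) - 2) (a c) (b c)]
  rw [sum_add_distrib] at h3
  linarith

theorem le_M (n : ℕ) : ∀ w : List α, w.length = n → (P w).card ≤ M w.length := by
  induction n using Nat.strong_induction_on with
  | _ n ih =>
    intro w hw
    have := (key w fun m hm => ih _ (hw ▸ hm) m rfl).trans (T_le _ _).1
    exact_mod_cast this

end

theorem attain (n : ℕ) : ∃ w : List ℕ, w.length = n ∧ M n ≤ (P w).card := by
  induction n using Nat.twoStepInduction with
  | zero => exact ⟨[], rfl, by decide⟩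
  | one => exact ⟨[0], rfl, by decide⟩
  | more n ih _ =>
    obtain ⟨w, hw, h⟩ := ih
    obtain ⟨c, hc⟩ := Infinite.exists_notMem_finset w.toFinset
    rw [List.mem_toFinset] at hc
    refine ⟨c :: (w ++ [c]), by simp [hw], ?_⟩
    have hs : P w ∪ insert [c] (insert [c, c] ((P w).image fun s => c :: (s ++ [c]))) ⊆
        P (c :: (w ++ [c])) := by
      intro u hu
      simp only [mem_union, mem_insert, mem_image, mem_P] at hu ⊢
      rcases hu with ⟨h0, h1, h2⟩ | rfl | rfl | ⟨s, ⟨h0, h1, h2⟩, rfl⟩
      · exact ⟨h0, (h1.trans (List.sublist_append_left _ _)).cons _, h2⟩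
      · simp
      · exact ⟨by simp, List.cons_sublist_cons.mpr (List.sublist_append_right _ _), rfl⟩
      · exact ⟨by simp, List.cons_sublist_cons.mpr (h1.append_right _), by simp [h2]⟩
    have h1 := card_le_card hs
    rw [card_union_of_disjoint, card_insert_of_notMem, card_insert_of_notMem,
      card_image_of_injective] at h1
    · have := M_step n
      rw [G_nat] at this
      omega
    · intro s t e
      simpa using e
    · simp only [mem_image, mem_P]
      rintro ⟨s, ⟨h0, -⟩, e⟩
      apply h0
      simpa using e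
    · simp
    · refine disjoint_left.mpr fun u hu hu' => hc ((mem_P.mp hu).2.1.subset ?_)
      simp only [mem_insert, mem_image] at hu'
      rcases hu' with rfl | rfl | ⟨s, -, rfl⟩ <;> simp

/-- The maximum of `SP` over words of length `n ≥ 1` is `M n`, and it is attained only with
`⌈n/2⌉` letters (`n` odd) or with `n/2` or `n/2 + 1` letters (`n` even). -/
theorem result (n : ℕ) :
    (∃ w : List ℕ, w.length = n ∧ SP w = M n) ∧
    ∀ (α : Type) (w : List α), w.length = n → SP w ≤ M n ∧
      (SP w = M n → (n % 2 = 1 → alph w = (n + 1) / 2) ∧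
        (n % 2 = 0 → alph w = n / 2 ∨ alph w = n / 2 + 1)) := by
  constructor
  · obtain ⟨w, rfl, h⟩ := attain n
    exact ⟨w, rfl, by rw [SP_eq]; exact le_antisymm (le_M _ w rfl) h⟩
  · rintro α w rfl
    classical
    rw [SP_eq, alph_eq]
    refine ⟨le_M _ w rfl, fun h => ?_⟩
    have k := key w fun m _ => le_M _ m rfl
    rw [h] at k
    have h1 : ¬ 2 * w.toFinset.card < w.length := fun g => absurd ((T_le _ _).2 g) (not_lt.mpr k)
    have h2 : ¬ w.length + 3 ≤ 2 * w.toFinset.card := fun g => absurd (T_lt _ _ g) (not_lt.mpr k)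
    omega

end Pool.Agent.Results.MP_06621a_co.MaxPalindromes
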